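import Pool.Agent.J6H79.BC.GnStr
import Pool.Agent.TH554.J1548
import Pool.Agent.J6H49.BC.Stm

/-!
# There is a numeration of the provability relation
-/

set_option autoImplicit false

namespace Pool.Agent.J6H79.BC

open Pool.Agent.TH636.BC (PrComp PrRel Numerates)

/-- The provability relation is decidable. -/
theorem prComp : PrComp := Pool.Agent.TH554.J1548.prComp gnStr Pool.Agent.TH955.J1547.gnLog

/-- There is a numeration of the provability relation. -/
theorem numT : Pool.Agent.J6H49.BC.NumT := by
  have h : ComputablePred (fun x : ℕ × ℕ × ℕ => PrRel x.1 x.2.1 x.2.2) := prComp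
  obtain ⟨P, h1, h2, h3, h4⟩ := Pool.Agent.TH838.J1549.repr PrRel h.to_re h.not.to_re
  exact ⟨P, h1, h2, h3, h4⟩

end Pool.Agent.J6H79.BC
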