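import Pool.Agent.J6H92.BC.G3

/-!
# Module G5: the numbers exist
-/

set_option autoImplicit false

namespace Pool.Agent.J6H79.BC

open Pool.Agent.TH672 (Fm LogK ReplK Sw digits)
open Pool.Agent.TH636.BC (Fml blk inst lt col robinson Cx)
open Pool.Agent.J6H49.BC
open Pool.Agent.J6H92.BC

theorem subst_nf' {x y : ℕ} : ∀ {φ : Fml}, ¬ φ.Free x → φ.subst x y = φ
  | .bot, _ => rfl
  | .eq u v, h => by
    have h1 : u ≠ x := fun e => h (.inl e.symm)
    have h2 : v ≠ x := fun e => h (.inr e.symm)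
    simp [Fm.subst, Pool.Agent.TH672.Form.ren, h1, h2]
  | .zero u, h => by
    have h1 : u ≠ x := fun e => h e.symm
    simp [Fm.subst, Pool.Agent.TH672.Form.ren, h1]
  | .succ u v, h => by
    have h1 : u ≠ x := fun e => h (.inl e.symm)
    have h2 : v ≠ x := fun e => h (.inr e.symm)
    simp [Fm.subst, Pool.Agent.TH672.Form.ren, h1, h2]
  | .add u v w, h => by
    have h1 : u ≠ x := fun e => h (.inl e.symm)
    have h2 : v ≠ x := fun e => h (.inr (.inl e.symm))
    have h3 : w ≠ x := fun e => h (.inr (.inr e.symm))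
    simp [Fm.subst, Pool.Agent.TH672.Form.ren, h1, h2, h3]
  | .mul u v w, h => by
    have h1 : u ≠ x := fun e => h (.inl e.symm)
    have h2 : v ≠ x := fun e => h (.inr (.inl e.symm))
    have h3 : w ≠ x := fun e => h (.inr (.inr e.symm))
    simp [Fm.subst, Pool.Agent.TH672.Form.ren, h1, h2, h3]
  | .op i a b c d, h => by
    have h1 : a ≠ x := fun e => h (.inl e.symm)
    have h2 : b ≠ x := fun e => h (.inr (.inl e.symm))
    have h3 : c ≠ x := fun e => h (.inr (.inr (.inl e.symm)))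
    have h4 : d ≠ x := fun e => h (.inr (.inr (.inr e.symm)))
    simp [Fm.subst, Pool.Agent.TH672.Form.ren, h1, h2, h3, h4]
  | .imp φ ψ, h => by
    simp only [Fm.subst, subst_nf' fun h' => h (.inl h'), subst_nf' fun h' => h (.inr h')]
  | .all u φ, h => by
    by_cases hu : u = x
    · simp [Fm.subst, hu]
    · simp only [Fm.subst, if_neg hu]
      rw [subst_nf' fun hf => h ⟨Ne.symm hu, hf⟩]

/-- elimination of an existential quantifier -/
theorem exElim {Γ G Δ : List Fml} {c s l N M x u : ℕ} {φ φ' Z : Fml}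
    (h1 : ND Γ c s l G N Δ (φ.imp Z)) (hx : ∀ g ∈ Δ, ¬ g.Free x) (hZ : ∀ v, ¬ Z.Free v)
    (hf : φ.FreeFor u x) (hφ : φ.subst x u = φ')
    (h2 : ND Γ c s l G M Δ (Fm.ex u φ')) (hu : ∀ g ∈ Δ, ¬ g.Free u) (hl : Δ.length + 2 ≤ l)
    (w1 : W c s (Fm.all x (φ.imp Z))) (w2 : W c s (φ'.imp Z)) (w3 : W c s (Z.neg.neg))
    (w4 : W c s (Fm.ex u φ')) :
    ND Γ c s l G (N + M + 20) Δ Z := by
  have wn : W c s Z.neg := W_left w3
  have wall : W c s (Fm.all u φ'.neg) := W_left w4
  have wφ' : W c s φ' := W_left w2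
  have wbot : W c s (.bot : Fml) := W_right wn
  have hW := (ND_wfs h1).2.1
  have wneg : W c s φ'.neg := by
    refine ⟨wφ'.bb.imp (bb_bot _), ?_⟩
    have := wall.le
    rw [sz_all] at this
    omega
  have hW1 : ∀ g ∈ Δ ++ [Z.neg], W c s g := by
    intro g hg
    rcases List.mem_append.1 hg with hg | hg
    · exact hW g hg
    · rw [List.mem_singleton] at hg
      rw [hg]; exact wn
  have hW2 : ∀ g ∈ (Δ ++ [Z.neg]) ++ [φ'], W c s g := by
    intro g hg
    rcases List.mem_append.1 hg with hg | hg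
    · exact hW1 g hg
    · rw [List.mem_singleton] at hg
      rw [hg]; exact wφ'
  have l1 : (Δ ++ [Z.neg]).length ≤ l := by
    rw [List.length_append, List.length_singleton]; omega
  have l2 : ((Δ ++ [Z.neg]) ++ [φ']).length ≤ l := by
    rw [List.length_append, List.length_append, List.length_singleton, List.length_singleton]; omega
  have a1 := h1.allI hx w1
  have e1 : (φ.imp Z).subst x u = φ'.imp Z := by
    show (φ.subst x u).imp (Z.subst x u) = _
    rw [hφ, subst_nf' (hZ x)]
  have a2 := a1.allE u (x := x) ⟨hf, freeFor_of_not_free (hZ x)⟩ (by rw [e1]; exact w2)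
  rw [e1] at a2
  have a3 := a2.sub (Δ' := (Δ ++ [Z.neg]) ++ [φ']) (fun g hg =>
    List.mem_append_left _ (List.mem_append_left _ hg)) l2 hW2
  have a4 : ND Γ c s l G _ ((Δ ++ [Z.neg]) ++ [φ']) Z :=
    a3.mp (.hyp l2 hW2 (by simp))
  have a5 : ND Γ c s l G 1 ((Δ ++ [Z.neg]) ++ [φ']) Z.neg := .hyp l2 hW2 (by simp)
  have a6 : ND Γ c s l G _ ((Δ ++ [Z.neg]) ++ [φ']) .bot := a5.mp a4
  have a7 : ND Γ c s l G _ (Δ ++ [Z.neg]) φ'.neg := a6.impI wneg
  have a8 := a7.allI (x := u) (by
    intro g hg hfree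
    rcases List.mem_append.1 hg with hg | hg
    · exact hu g hg hfree
    · rw [List.mem_singleton] at hg
      rw [hg] at hfree
      rcases hfree with h | h
      · exact hZ u h
      · exact h) wall
  have a9 := h2.sub (Δ' := Δ ++ [Z.neg]) (fun g hg => List.mem_append_left _ hg) l1 hW1
  have a10 : ND Γ c s l G _ (Δ ++ [Z.neg]) .bot := a9.mp a8
  have a11 : ND Γ c s l G _ Δ Z.neg.neg := a10.impI w3
  exact (a11.dn).up (by omega)

theorem chain_succ (j : ℕ) : chain (j + 1) = chain j ++ [Fm.succ (dn j) (dn (j + 1))] := by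
  unfold chain
  rw [List.range_succ, List.map_append]
  rfl

theorem free_chain' {n x : ℕ} {g : Fml} (hg : g ∈ chain n) (hx : g.Free x) :
    ∃ i ≤ n, x = dn i := by
  unfold chain at hg
  rcases List.mem_cons.1 hg with rfl | hg
  · exact ⟨0, by omega, hx⟩
  · obtain ⟨i, hi, rfl⟩ := List.mem_map.1 hg
    rw [List.mem_range] at hi
    rcases hx with h | h
    · exact ⟨i, by omega, h⟩
    · exact ⟨i + 1, by omega, h⟩

theorem digits_len' (n : ℕ) : (digits n).length ≤ n := by
  induction n using Nat.strong_induction_on with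
  | _ n ih =>
    rw [digits]
    split_ifs with h
    · simp
    · rw [List.length_append, List.length_singleton]
      have := ih ((n - 1) / 2) (by omega)
      omega

/-- **Module G5.** -/
theorem g5 : G5T := by
  intro Y c hY hc hB
  refine ⟨3000 + sz Y, fun C hC n => ?_⟩
  obtain ⟨s, hs⟩ : ∃ s, s = C * (n + 1) ^ 3 := ⟨_, rfl⟩
  obtain ⟨l, hl⟩ : ∃ l, l = C * (n + 1) := ⟨_, rfl⟩
  rw [← hs, ← hl]
  have hn : 1 ≤ n + 1 := by omega
  have hsq : n + 1 ≤ (n + 1) ^ 2 := by nlinarith
  have hcu : (n + 1) ^ 2 ≤ (n + 1) ^ 3 := Nat.pow_le_pow_right hn (by norm_num)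
  have hs1 : (3000 + sz Y) * (n + 1) ^ 2 ≤ s := by
    rw [hs]
    exact Nat.mul_le_mul hC hcu
  have hs2 : 3000 * (n + 1) ^ 2 + sz Y ≤ s := by
    have h1 : (3000 + sz Y) * (n + 1) ^ 2 = 3000 * (n + 1) ^ 2 + sz Y * (n + 1) ^ 2 := by ring
    have h2 : sz Y * 1 ≤ sz Y * (n + 1) ^ 2 := Nat.mul_le_mul_left _ (by omega)
    omega
  have hl1 : 3000 * (n + 1) ≤ l := by
    rw [hl]
    exact Nat.mul_le_mul_right _ (by omega)
  have hdn : ∀ i, dn i = 42 + 6 * i := fun i => rfl
  -- the formula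
  obtain ⟨Z, hZ⟩ : ∃ Z, Z = instD 3 n Y := ⟨_, rfl⟩
  rw [← hZ]
  have hcxR : Cx false (c + 1) ((digits n).foldr (digitD 3) Y) := cx_fold hB _
  have hszR : sz ((digits n).foldr (digitD 3) Y) ≤ sz Y + 61 * n := by
    refine (sz_fold Y _).trans ?_
    have := Nat.mul_le_mul_left 61 (digits_len' n)
    omega
  have bZ : BB (c + 2) Z := by
    rw [hZ]
    exact BB.all' (.imp (.zero _ _ _) hcxR) 3
  have sZ : sz Z ≤ sz Y + 61 * n + 30 := by
    rw [hZ]
    show sz (.all 3 (.imp (.zero 3) _)) ≤ _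
    simp only [sz_all, sz_imp, sz_zero]
    omega
  have cZ : ∀ v, ¬ Z.Free v := by
    intro v hv
    rw [hZ] at hv
    obtain ⟨h3, h | h⟩ : v ≠ 3 ∧ (v = 3 ∨ ((digits n).foldr (digitD 3) Y).Free v) := hv
    · exact h3 h
    · exact h3 (free_fold hY _ v h)
  have hlin : n + 1 ≤ (n + 1) ^ 2 := hsq
  have w3 : W (c + 4) s Z.neg.neg := ⟨((bZ.imp (bb_bot _)).imp (bb_bot _)).mono (by omega), by
    show sz ((Z.imp .bot).imp .bot) ≤ s
    simp only [sz_imp, sz_bot]
    omega⟩
  constructor
  · intro j hj G hG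
    have hcsj := cs_chain (j + 1)
    have hj2 : (j + 1 + 1) ^ 2 ≤ 4 * (n + 1) ^ 2 := by nlinarith
    have hWc : ∀ g ∈ chain j, W (c + 4) s g := W_chain (by nlinarith)
    have hlc : (chain j).length + 2 ≤ l := by rw [len_chain]; omega
    have hWall : W (c + 4) s (imps (chain (j + 1)) Z) := by
      refine ⟨BB.imps (fun g hg => (W_chain (n := j + 1) (c := c + 4) (s := s) (by nlinarith) g hg).bb)
        (bZ.mono (by omega)), ?_⟩
      rw [sz_imps]
      nlinarith
    have h0 : ND WB (c + 4) s l G 1 (chain j) (imps (chain (j + 1)) Z) :=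
      .thm (by omega) hWc hWall (.inl hG)
    rw [chain_succ, imps_append] at h0
    have h1 := ND_mps (M := 1) h0 (fun g hg => .hyp (by omega) hWc hg)
    simp only [imps_cons, imps_nil] at h1
    -- the successor exists
    have r0 : ND WB (c + 4) s l G 1 (chain j) (.all 0 (.ex 1 (.succ 0 1))) := by
      refine .thm (by omega) hWc ⟨?_, ?_⟩ (.inr (.inl (rob_mem (by simp [robinson]))))
      · exact (((((bb_succ 0 0 1).imp (bb_bot _)).all 1).imp (bb_bot _)).all 0).mono (by omega)
      · show sz (.all 0 (.imp (.all 1 (.imp (.succ 0 1) .bot)) .bot)) ≤ s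
        simp only [sz_all, sz_imp, sz_succ, sz_bot]
        omega
    have e1 : (Fm.ex 1 (.succ 0 1) : Fml).subst 0 (dn j) = Fm.ex 1 (.succ (dn j) 1) := by
      simp [Fm.ex, Fm.neg, Fm.subst, Pool.Agent.TH672.Form.ren]
    have w4 : W (c + 4) s (Fm.ex 1 (.succ (dn j) 1)) := by
      refine ⟨?_, ?_⟩
      · exact ((((bb_succ 0 _ 1).imp (bb_bot _)).all 1).imp (bb_bot _)).mono (by omega)
      · show sz (.imp (.all 1 (.imp (.succ (dn j) 1) .bot)) .bot) ≤ s
        simp only [sz_all, sz_imp, sz_succ, sz_bot, hdn]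
        omega
    have r1 := r0.allE (dn j) (x := 0) (by
      refine ⟨.inr (.inr ⟨?_, trivial, trivial⟩), trivial⟩
      rw [hdn]; omega) (by rw [e1]; exact w4)
    rw [e1] at r1
    have h2 := exElim (x := dn (j + 1)) (u := 1) h1 (by
        intro g hg hfree
        obtain ⟨i, hi, hx⟩ := free_chain' hg hfree
        rw [hdn, hdn] at hx
        omega) cZ trivial (by
        have : dn j ≠ dn (j + 1) := by rw [hdn, hdn]; omega
        simp [Fm.subst, Pool.Agent.TH672.Form.ren, this]) r1 (by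
        intro g hg hfree
        have := free_chain hg hfree
        omega) hlc (by
        refine ⟨(((bb_succ _ _ _).imp bZ).all _).mono (by omega), ?_⟩
        simp only [sz_all, sz_imp, sz_succ, hdn]
        omega) (by
        refine ⟨((bb_succ _ _ _).imp bZ).mono (by omega), ?_⟩
        simp only [sz_imp, sz_succ, hdn]
        omega) w3 w4
    have h3 := ND_impIs (Δ := []) (L := chain j) h2 ⟨BB.imps (fun g hg => (hWc g hg).bb)
      (bZ.mono (by omega)), by
      have := cs_chain j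
      rw [sz_imps]
      nlinarith⟩
    refine h3.up ?_
    rw [len_chain]
    nlinarith
  · intro G hG
    have hWc : ∀ g ∈ ([] : List Fml), W (c + 4) s g := by simp
    have hWall : W (c + 4) s (imps (chain 0) Z) := by
      refine ⟨BB.imps (fun g hg => (W_chain (n := 0) (c := c + 4) (s := s) (by omega) g hg).bb)
        (bZ.mono (by omega)), ?_⟩
      have := cs_chain 0
      rw [sz_imps]
      omega
    have h0 : ND WB (c + 4) s l G 1 [] (imps (chain 0) Z) :=
      .thm (by simp) hWc hWall (.inl hG)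
    have e0 : imps (chain 0) Z = .imp (.zero (dn 0)) Z := rfl
    rw [e0] at h0
    have w4 : W (c + 4) s (Fm.ex 0 (.zero 0)) := by
      refine ⟨?_, ?_⟩
      · exact ((((bb_zero 0 0).imp (bb_bot _)).all 0).imp (bb_bot _)).mono (by omega)
      · show sz (.imp (.all 0 (.imp (.zero 0) .bot)) .bot) ≤ s
        simp only [sz_all, sz_imp, sz_zero, sz_bot]
        omega
    have r0 : ND WB (c + 4) s l G 1 [] (.ex 0 (.zero 0)) :=
      .thm (by simp) hWc w4 (.inr (.inl (rob_mem (by simp [robinson]))))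
    have h2 := exElim (x := dn 0) (u := 0) h0 (by simp) cZ trivial (by
        simp [Fm.subst, Pool.Agent.TH672.Form.ren]) r0 (by simp) (by
        simp only [List.length_nil]; omega) (by
        refine ⟨(((bb_zero _ _).imp bZ).all _).mono (by omega), ?_⟩
        simp only [sz_all, sz_imp, sz_zero, hdn]
        omega) (by
        refine ⟨((bb_zero _ _).imp bZ).mono (by omega), ?_⟩
        simp only [sz_imp, sz_zero]
        omega) w3 w4
    exact h2.up (by nlinarith)

end Pool.Agent.J6H79.BC
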