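import Pool.Agent.TH955.J1547

/-!
# The strings of formulas are computed from the Gödel numbers
-/

set_option autoImplicit false

namespace Pool.Agent.J6H79.BC

open Pool.Agent.TH672 (Fm varStr)
open Pool.Agent.TH636.BC (Fml gn str GnStr)
open Pool.Agent.TH955.J1547

/-! ### Strings -/

theorem p_append {β : Type} [Primcodable β] {f g : β → List Bool} (hf : Primrec f)
    (hg : Primrec g) : Primrec fun x => f x ++ g x := Primrec.list_append.comp hf hg

theorem varStr_primrec : Primrec varStr := by
  have h : Primrec fun n : ℕ => (List.range n).map (fun _ => true) :=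
    Primrec.list_map Primrec.list_range (Primrec.const true).to₂
  have e : varStr = fun n : ℕ => (List.range n).map (fun _ => true) ++ [false] := by
    funext n
    unfold varStr
    congr 1
    simp
  rw [e]
  exact p_append h (Primrec.const _)

theorem p_varStr {β : Type} [Primcodable β] {f : β → ℕ} (hf : Primrec f) :
    Primrec fun x => varStr (f x) := varStr_primrec.comp hf

/-- step for `sF` -/
def sFs (_ : ℕ) (n : ℕ) (b1 b2 : List Bool) : List Bool :=
  cond (eb (tg n) 1) [false, false, false, false]
    (cond (eb (tg n) 2) ([false, false, false, true] ++ varStr (c1 n) ++ varStr (c2 n))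
      (cond (eb (tg n) 3) ([false, false, true, false] ++ varStr (ar n))
        (cond (eb (tg n) 4) ([false, false, true, true] ++ varStr (c1 n) ++ varStr (c2 n))
          (cond (eb (tg n) 5) ([false, true, false, false] ++ varStr (c1 n) ++
              varStr (u1 (c2 n)) ++ varStr (u2 (c2 n)))
            (cond (eb (tg n) 6) ([false, true, false, true] ++ varStr (c1 n) ++
                varStr (u1 (c2 n)) ++ varStr (u2 (c2 n)))
              (cond (eb (tg n) 7) ([false, true, true, false] ++ varStr (c1 n) ++
                  varStr (u1 (c2 n)) ++ varStr (u1 (u2 (c2 n))) ++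
                  varStr (u1 (u2 (u2 (c2 n)))) ++ varStr (u2 (u2 (u2 (c2 n)))))
                (cond (eb (tg n) 8) ([false, true, true, true] ++ b1 ++ b2)
                  ([true, false, false, false] ++ varStr (c1 n) ++ b2))))))))

/-- the string of the formula with a Gödel number -/
def sF (n : ℕ) : List Bool := fold sFs 0 n

theorem sF_primrec : Primrec sF := by
  have h := fold_primrec sFs (by
    unfold sFs
    repeat' (with_reducible (first | assumption | exact p_var | apply p_cond | apply p_append | apply p_varStr | apply p_eb | apply p_tg | apply p_ar | apply p_c1 | apply p_c2 | apply p_u1 | apply p_u2 | apply p_fst | apply p_snd | exact Primrec.const _)))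
  exact h.comp (Primrec.const 0) Primrec.id

theorem sF_gn : ∀ φ : Fml, sF (gn φ) = str φ := by
  intro φ
  induction φ with
  | bot => unfold sF gn; rw [fold]; simp [sFs, eb, str]
  | eq x y => unfold sF gn; rw [fold]; simp [sFs, eb, str]
  | zero x => unfold sF gn; rw [fold]; simp [sFs, eb, str]
  | succ x y => unfold sF gn; rw [fold]; simp [sFs, eb, str]
  | add x y z => unfold sF gn; rw [fold]; simp [sFs, eb, str]
  | mul x y z => unfold sF gn; rw [fold]; simp [sFs, eb, str]
  | op i a b c d => unfold sF gn; rw [fold]; simp [sFs, eb, str]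
  | imp φ ψ ih1 ih2 =>
    unfold sF at *
    rw [gn, fold_pair _ _ (by norm_num), ih1, ih2]
    simp [sFs, eb, str]
  | all x φ ih =>
    unfold sF at *
    rw [gn, fold_pair _ _ (by norm_num), ih]
    simp [sFs, eb, str]

/-! ### The bound -/

/-- a bound for the pair -/
def qq (m : ℕ) : ℕ := (m + 10) * (m + 10)

theorem qq_mono {a b : ℕ} (h : a ≤ b) : qq a ≤ qq b :=
  Nat.mul_le_mul (by omega) (by omega)

theorem le_qq (m : ℕ) : m ≤ qq m := by unfold qq; nlinarith

theorem pair_le {a b m : ℕ} (ha : a ≤ m) (hb : b ≤ m) : Nat.pair a b ≤ qq m := by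
  have h := Nat.pair_lt_max_add_one_sq a b
  have h1 : max a b ≤ m := max_le ha hb
  have h2 : (max a b + 1) ^ 2 ≤ (m + 1) ^ 2 := Nat.pow_le_pow_left (by omega) 2
  unfold qq
  nlinarith

/-- the step of the recursion for the bound -/
def bs (m : ℕ) : ℕ := qq (qq (qq (qq (qq (qq m)))))

theorem bs_mono {a b : ℕ} (h : a ≤ b) : bs a ≤ bs b :=
  qq_mono (qq_mono (qq_mono (qq_mono (qq_mono (qq_mono h)))))

/-- the bound -/
def BB (n : ℕ) : ℕ := Nat.rec 10 (fun k b => bs (b + k + 10)) n

theorem BB_succ (n : ℕ) : BB (n + 1) = bs (BB n + n + 10) := rfl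

theorem le_bs (m : ℕ) : m ≤ bs m :=
  (le_qq m).trans <| (le_qq _).trans <| (le_qq _).trans <| (le_qq _).trans <|
    (le_qq _).trans (le_qq _)

theorem BB_mono : Monotone BB := by
  refine monotone_nat_of_le_succ fun n => ?_
  rw [BB_succ]
  exact le_trans (by omega) (le_bs _)

theorem p_qq {β : Type} [Primcodable β] {f : β → ℕ} (hf : Primrec f) :
    Primrec fun x => qq (f x) := by
  unfold qq
  exact Primrec.nat_mul.comp (Primrec.nat_add.comp hf (Primrec.const 10))
    (Primrec.nat_add.comp hf (Primrec.const 10))

theorem BB_primrec : Primrec BB := by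
  have h : Primrec₂ fun (k b : ℕ) => bs (b + k + 10) := by
    unfold bs
    exact p_qq (p_qq (p_qq (p_qq (p_qq (p_qq (Primrec.nat_add.comp (Primrec.nat_add.comp
      Primrec.snd Primrec.fst) (Primrec.const 10)))))))
  exact Primrec.nat_rec₁ 10 h

theorem varStr_length (x : ℕ) : (varStr x).length = x + 1 := by simp [varStr]

/-- the bound for one constructor -/
theorem pair_bs1 {k a m : ℕ} (hk : k ≤ 10) (ha : a ≤ m) : Nat.pair k a ≤ bs (m + 10) := by
  have h := pair_le (m := m + 10) (show k ≤ m + 10 by omega) (show a ≤ m + 10 by omega)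
  exact h.trans <| (le_qq _).trans <| (le_qq _).trans <| (le_qq _).trans <| (le_qq _).trans <|
    (le_qq _)

theorem pair_bs2 {k a b m : ℕ} (hk : k ≤ 10) (ha : a ≤ m) (hb : b ≤ m) :
    Nat.pair k (Nat.pair a b) ≤ bs (m + 10) := by
  have h1 : k ≤ m + 10 := by omega
  have ha' : a ≤ m + 10 := by omega
  have hb' : b ≤ m + 10 := by omega
  have h2 := pair_le (h1.trans (le_qq _)) (pair_le ha' hb')
  exact h2.trans <| (le_qq _).trans <| (le_qq _).trans <| (le_qq _).trans <| (le_qq _)

theorem pair_bs3 {k a b c m : ℕ} (hk : k ≤ 10) (ha : a ≤ m) (hb : b ≤ m) (hc : c ≤ m) :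
    Nat.pair k (Nat.pair a (Nat.pair b c)) ≤ bs (m + 10) := by
  have h1 : k ≤ m + 10 := by omega
  have ha' : a ≤ m + 10 := by omega
  have hb' : b ≤ m + 10 := by omega
  have hc' : c ≤ m + 10 := by omega
  have h2 := pair_le (h1.trans ((le_qq _).trans (le_qq _)))
    (pair_le (ha'.trans (le_qq _)) (pair_le hb' hc'))
  exact h2.trans <| (le_qq _).trans <| (le_qq _).trans <| (le_qq _)

theorem pair_bs5 {k a b c d e m : ℕ} (hk : k ≤ 10) (ha : a ≤ m) (hb : b ≤ m) (hc : c ≤ m)
    (hd : d ≤ m) (he : e ≤ m) :
    Nat.pair k (Nat.pair a (Nat.pair b (Nat.pair c (Nat.pair d e)))) ≤ bs (m + 10) := by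
  have h1 : k ≤ m + 10 := by omega
  have ha' : a ≤ m + 10 := by omega
  have hb' : b ≤ m + 10 := by omega
  have hc' : c ≤ m + 10 := by omega
  have hd' : d ≤ m + 10 := by omega
  have he' : e ≤ m + 10 := by omega
  have h5 := pair_le hd' he'
  have h4 := pair_le (hc'.trans (le_qq _)) h5
  have h3 := pair_le (hb'.trans ((le_qq _).trans (le_qq _))) h4
  have h2 := pair_le (ha'.trans ((le_qq _).trans ((le_qq _).trans (le_qq _)))) h3
  have h := pair_le (h1.trans ((le_qq _).trans ((le_qq _).trans ((le_qq _).trans (le_qq _))))) h2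
  exact h.trans (le_qq _)

theorem gn_le : ∀ φ : Fml, gn φ ≤ BB (str φ).length := by
  intro φ
  have hB : ∀ n k : ℕ, ∀ m, m = k + 1 → n ≤ bs (BB k + k + 10) → n ≤ BB m := by
    intro n k m hm h
    rw [hm, BB_succ]
    exact h
  induction φ with
  | bot =>
    refine hB _ 3 _ (by simp [str]) ?_
    exact pair_bs1 (by norm_num) (by omega)
  | eq x y =>
    refine hB _ (3 + (x + 1) + (y + 1)) _ (by simp [str, varStr_length]; omega) ?_
    exact pair_bs2 (by norm_num) (by omega) (by omega)
  | zero x =>
    refine hB _ (3 + (x + 1)) _ (by simp [str, varStr_length]; try omega) ?_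
    exact pair_bs1 (by norm_num) (by omega)
  | succ x y =>
    refine hB _ (3 + (x + 1) + (y + 1)) _ (by simp [str, varStr_length]; omega) ?_
    exact pair_bs2 (by norm_num) (by omega) (by omega)
  | add x y z =>
    refine hB _ (3 + (x + 1) + (y + 1) + (z + 1)) _ (by simp [str, varStr_length]; omega) ?_
    exact pair_bs3 (by norm_num) (by omega) (by omega) (by omega)
  | mul x y z =>
    refine hB _ (3 + (x + 1) + (y + 1) + (z + 1)) _ (by simp [str, varStr_length]; omega) ?_
    exact pair_bs3 (by norm_num) (by omega) (by omega) (by omega)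
  | op i a b c d =>
    refine hB _ (3 + (i + 1) + (a + 1) + (b + 1) + (c + 1) + (d + 1)) _
      (by simp [str, varStr_length]; omega) ?_
    exact pair_bs5 (by norm_num) (by omega) (by omega) (by omega) (by omega) (by omega)
  | imp φ ψ ih1 ih2 =>
    refine hB _ (3 + (str φ).length + (str ψ).length) _ (by simp [str]; omega) ?_
    have h1 := BB_mono (show (str φ).length ≤ 3 + (str φ).length + (str ψ).length by omega)
    have h2 := BB_mono (show (str ψ).length ≤ 3 + (str φ).length + (str ψ).length by omega)
    exact pair_bs2 (by norm_num) (by omega) (by omega)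
  | all x φ ih =>
    refine hB _ (3 + (x + 1) + (str φ).length) _ (by simp [str, varStr_length]; omega) ?_
    have h1 := BB_mono (show (str φ).length ≤ 3 + (x + 1) + (str φ).length by omega)
    exact pair_bs2 (by norm_num) (by omega) (by omega)

/-- The Gödel numbers are a decidable set, the strings can be computed and the Gödel number is
bounded by a primitive recursive function of the length. -/
theorem gnStr : GnStr :=
  ⟨⟨isF, isF_primrec, isF_iff⟩, ⟨sF, sF_primrec, sF_gn⟩, ⟨BB, BB_primrec, BB_mono, gn_le⟩⟩

end Pool.Agent.J6H79.BC
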